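import Mathlib
import Pool.Agent.Helper15.CK.VDef

set_option autoImplicit false

/-! Module C (parity) for MP_67fc43_an. -/

namespace Pool.Agent.Helper93.CK

open Pool.Agent.Helper15.CK

/-- `(L j f) w = f (w ++ [j])` -/
noncomputable def L (j : Fin 3) : V →ₗ[ℝ] V where
  toFun f := ⟨fun w => f (w ++ [j]), by
    refine memℓp_infty ⟨‖f‖, ?_⟩
    rintro _ ⟨w, rfl⟩
    exact lp.norm_apply_le_norm ENNReal.top_ne_zero f _⟩
  map_add' f g := by
    ext w
    rfl
  map_smul' c f := by
    ext w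
    rfl

lemma L_apply (j : Fin 3) (f : V) (w : W) : L j f w = f (w ++ [j]) := rfl

lemma R_nil (j : Fin 3) (f : V) : R j f [] = 0 := by
  rw [R_apply]; simp

lemma L_R_same (j : Fin 3) (f : V) : L j (R j f) = f := by
  ext w
  rw [L_apply, R_apply_concat]

lemma L_R_ne {i j : Fin 3} (h : i ≠ j) (f : V) : L j (R i f) = 0 := by
  ext w
  rw [L_apply, R_apply]
  simp [Ne.symm h]

lemma sum_R_L {f : V} (h : f [] = 0) : ∑ j, R j (L j f) = f := by
  ext w
  rw [lp.coeFn_sum, Finset.sum_apply]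
  rcases List.eq_nil_or_concat w with rfl | ⟨w', i, rfl⟩
  · rw [h]
    exact Finset.sum_eq_zero fun j _ => R_nil j _
  · rw [List.concat_eq_append, Finset.sum_eq_single i]
    · rw [R_apply_concat, L_apply]
    · intro j _ hj
      rw [R_apply]
      simp [Ne.symm hj]
    · intro h
      exact absurd (Finset.mem_univ i) h

lemma R_mem {n : ℕ} {f : V} (hf : f ∈ Vge n) (j : Fin 3) : R j f ∈ Vge (n + 1) := by
  intro w hw
  rw [R_apply]
  split_ifs with h
  · apply hf
    have : w ≠ [] := by rintro rfl; simp at h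
    have := List.length_pos_iff.2 this
    rw [List.length_dropLast]
    omega
  · rfl

lemma L_mem {n : ℕ} {f : V} (hf : f ∈ Vge (n + 1)) (j : Fin 3) : L j f ∈ Vge n := by
  intro w hw
  rw [L_apply]
  apply hf
  simp
  exact hw

/-- evaluation at the empty word -/
noncomputable def ev : V →ₗ[ℝ] ℝ where
  toFun f := f []
  map_add' _ _ := rfl
  map_smul' _ _ := rfl

/-- the point mass at the empty word -/
noncomputable def dl (c : ℝ) : V := ⟨fun w => if w = [] then c else 0, by
  refine memℓp_infty ⟨‖c‖, ?_⟩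
  rintro _ ⟨w, rfl⟩
  by_cases h : w = [] <;> simp [h]⟩

lemma dl_nil (c : ℝ) : dl c [] = c := by
  show (if ([] : W) = [] then c else 0) = c
  simp

lemma L_dl (c : ℝ) (j : Fin 3) : L j (dl c) = 0 := by
  ext w
  rw [L_apply]
  show (if w ++ [j] = [] then c else 0) = 0
  simp

section main

variable (D : V →ₗ[ℝ] V × V) (n : ℕ)

/-- the second map -/
noncomputable def Phi : V × V →ₗ[ℝ] ℝ × ℝ × (Fin 3 → (V × V) ⧸ (Vge n).map D) :=
  (ev ∘ₗ LinearMap.fst ℝ V V).prod ((ev ∘ₗ LinearMap.snd ℝ V V).prod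
    (LinearMap.pi fun j => (Submodule.mkQ _) ∘ₗ ((L j).prodMap (L j))))

lemma Phi_apply (h : V × V) : Phi D n h =
    (h.1 [], h.2 [], fun j => Submodule.Quotient.mk (L j h.1, L j h.2)) := rfl

lemma Phi_surj : Function.Surjective (Phi D n) := by
  rintro ⟨a, b, q⟩
  choose u hu using fun j => Submodule.Quotient.mk_surjective _ (q j)
  have hL : ∀ (c : ℝ) (x : Fin 3 → V) (j : Fin 3), L j (dl c + ∑ i, R i (x i)) = x j := by
    intro c x j
    rw [map_add, L_dl, zero_add, map_sum, Finset.sum_eq_single j]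
    · exact L_R_same j _
    · intro i _ hi
      exact L_R_ne hi _
    · intro h
      exact absurd (Finset.mem_univ j) h
  have h0 : ∀ (c : ℝ) (x : Fin 3 → V), ev (dl c + ∑ i, R i (x i)) = c := by
    intro c x
    rw [map_add, map_sum, Finset.sum_eq_zero]
    · rw [add_zero]; exact dl_nil c
    · intro i _
      exact R_nil i (x i)
  refine ⟨(dl a + ∑ i, R i (u i).1, dl b + ∑ i, R i (u i).2), ?_⟩
  rw [Phi_apply]
  refine Prod.ext ?_ (Prod.ext ?_ ?_)
  · exact h0 a fun i => (u i).1
  · exact h0 b fun i => (u i).2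
  · funext j
    show Submodule.Quotient.mk (L j _, L j _) = q j
    rw [hL a (fun i => (u i).1), hL b (fun i => (u i).2)]
    exact hu j

variable {D n}

lemma D_sum (hinv : ∀ f ∈ Vge n, ∀ j, D (R j f) = (R j (D f).1, R j (D f).2))
    {f : Fin 3 → V} (hf : ∀ j, f j ∈ Vge n) :
    D (∑ j, R j (f j)) = (∑ j, R j (D (f j)).1, ∑ j, R j (D (f j)).2) := by
  rw [map_sum]
  apply Prod.ext
  · rw [Prod.fst_sum]
    show _ = ∑ j, R j (D (f j)).1
    apply Finset.sum_congr rfl
    intro j _
    rw [hinv _ (hf j)]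
  · rw [Prod.snd_sum]
    show _ = ∑ j, R j (D (f j)).2
    apply Finset.sum_congr rfl
    intro j _
    rw [hinv _ (hf j)]

lemma Phi_ker (hinv : ∀ f ∈ Vge n, ∀ j, D (R j f) = (R j (D f).1, R j (D f).2)) :
    LinearMap.ker (Phi D n) = (Vge (n + 1)).map D := by
  ext h
  rw [LinearMap.mem_ker, Phi_apply, Submodule.mem_map]
  constructor
  · intro hh
    have h1 : h.1 [] = 0 := congrArg (fun z => z.1) hh
    have h2 : h.2 [] = 0 := congrArg (fun z => z.2.1) hh
    have h3 : ∀ j, (L j h.1, L j h.2) ∈ (Vge n).map D := fun j => by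
      rw [← Submodule.Quotient.mk_eq_zero]
      exact congrFun (congrArg (fun z => z.2.2) hh) j
    choose f hf1 hf2 using h3
    refine ⟨∑ j, R j (f j), Submodule.sum_mem _ fun j _ => R_mem (hf1 j) j, ?_⟩
    rw [D_sum hinv hf1]
    simp only [hf2]
    rw [sum_R_L h1, sum_R_L h2]
  · rintro ⟨f, hf, rfl⟩
    have hf0 : f [] = 0 := hf [] (by simp)
    have hLm : ∀ j, L j f ∈ Vge n := fun j => L_mem hf j
    have hD := D_sum hinv hLm
    rw [sum_R_L hf0] at hD
    have e1 : ∀ (x : Fin 3 → V), ev (∑ i, R i (x i)) = 0 := by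
      intro x
      rw [map_sum]
      exact Finset.sum_eq_zero fun i _ => R_nil i (x i)
    have e2 : ∀ (x : Fin 3 → V) (j : Fin 3), L j (∑ i, R i (x i)) = x j := by
      intro x j
      rw [map_sum, Finset.sum_eq_single j]
      · exact L_R_same j _
      · intro i _ hi
        exact L_R_ne hi _
      · intro h
        exact absurd (Finset.mem_univ j) h
    rw [hD]
    refine Prod.ext (e1 _) (Prod.ext (e1 _) ?_)
    funext j
    show Submodule.Quotient.mk (L j _, L j _) = (0 : (V × V) ⧸ (Vge n).map D)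
    rw [e2 (fun i => (D (L i f)).1), e2 (fun i => (D (L i f)).2), Submodule.Quotient.mk_eq_zero]
    exact ⟨L j f, hLm j, rfl⟩

/-- extension by zero -/
noncomputable def ext (n : ℕ) : (List.Vector (Fin 3) n → ℝ) →ₗ[ℝ] V where
  toFun g := ⟨fun w => if h : w.length = n then g ⟨w, h⟩ else 0, by
    obtain ⟨C, hC⟩ := (Set.finite_range fun v => ‖g v‖).bddAbove
    refine memℓp_infty ⟨max C 0, ?_⟩
    rintro _ ⟨w, rfl⟩
    by_cases h : w.length = n
    · simp only [h, dif_pos]
      exact (hC ⟨_, rfl⟩).trans (le_max_left _ _)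
    · simp [h]⟩
  map_add' f g := by
    ext w
    show (if h : w.length = n then (f + g) ⟨w, h⟩ else 0) =
      (if h : w.length = n then f ⟨w, h⟩ else 0) + (if h : w.length = n then g ⟨w, h⟩ else 0)
    by_cases h : w.length = n <;> simp [h]
  map_smul' c f := by
    ext w
    show (if h : w.length = n then (c • f) ⟨w, h⟩ else 0) =
      c * (if h : w.length = n then f ⟨w, h⟩ else 0)
    by_cases h : w.length = n <;> simp [h]

lemma ext_apply (n : ℕ) (g : List.Vector (Fin 3) n → ℝ) (w : W) :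
    ext n g w = if h : w.length = n then g ⟨w, h⟩ else 0 := rfl

lemma ext_mem (g : List.Vector (Fin 3) n → ℝ) : ext n g ∈ Vge n := by
  intro w hw
  rw [ext_apply, dif_neg (by omega)]

lemma Vge_le : Vge (n + 1) ≤ Vge n := fun f hf w hw => hf w (by omega)

lemma sub_ext_mem {f : V} (hf : f ∈ Vge n) : f - ext n (fun v => f v.1) ∈ Vge (n + 1) := by
  intro w hw
  show f w - ext n (fun v => f v.1) w = 0
  rw [ext_apply]
  by_cases h : w.length = n
  · rw [dif_pos h, sub_self]
  · rw [dif_neg h, hf w (by omega), sub_zero]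

variable (D n) in
/-- the first map -/
noncomputable def psi : (List.Vector (Fin 3) n → ℝ) →ₗ[ℝ] (V × V) ⧸ (Vge (n + 1)).map D :=
  (Submodule.mkQ _) ∘ₗ D ∘ₗ ext n

lemma psi_inj (hinj : ∀ f ∈ Vge n, D f = 0 → f = 0) : Function.Injective (psi D n) := by
  rw [injective_iff_map_eq_zero]
  intro g hg
  have h1 : D (ext n g) ∈ (Vge (n + 1)).map D := by
    rw [← Submodule.Quotient.mk_eq_zero]
    exact hg
  obtain ⟨f, hf, hfe⟩ := h1
  have h2 : ext n g - f = 0 := by
    apply hinj
    · exact Submodule.sub_mem _ (ext_mem g) (Vge_le hf)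
    · rw [map_sub, hfe, sub_self]
  have h3 : ext n g = f := sub_eq_zero.1 h2
  funext v
  have h4 := hf v.1 (by rw [v.2]; omega)
  rw [← h3, ext_apply, dif_pos v.2] at h4
  exact h4

lemma psi_range : LinearMap.range (psi D n) =
    ((Vge n).map D).map (Submodule.mkQ ((Vge (n + 1)).map D)) := by
  ext q
  constructor
  · rintro ⟨g, rfl⟩
    exact ⟨D (ext n g), ⟨ext n g, ext_mem g, rfl⟩, rfl⟩
  · rintro ⟨_, ⟨f, hf, rfl⟩, rfl⟩
    refine ⟨fun v => f v.1, ?_⟩
    have h1 := sub_ext_mem hf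
    have h2 : D f - D (ext n fun v => f v.1) ∈ (Vge (n + 1)).map D :=
      ⟨_, h1, by rw [map_sub]⟩
    exact ((Submodule.Quotient.eq _).2 h2).symm

end main

theorem parity (D : V →ₗ[ℝ] V × V) (n : ℕ)
    (hinj : ∀ f ∈ Vge n, D f = 0 → f = 0)
    (hfin : Module.Finite ℝ ((V × V) ⧸ (Vge n).map D))
    (hinv : ∀ f ∈ Vge n, ∀ j, D (R j f) = (R j (D f).1, R j (D f).2)) : False := by
  classical
  -- second description
  have e2 : ((V × V) ⧸ (Vge (n + 1)).map D) ≃ₗ[ℝ]
      ℝ × ℝ × (Fin 3 → (V × V) ⧸ (Vge n).map D) :=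
    (Submodule.quotEquivOfEq _ _ (Phi_ker hinv).symm).trans
      ((Phi D n).quotKerEquivOfSurjective (Phi_surj D n))
  have hfin' : Module.Finite ℝ ((V × V) ⧸ (Vge (n + 1)).map D) := Module.Finite.equiv e2.symm
  have f2 := e2.finrank_eq
  rw [Module.finrank_prod, Module.finrank_prod, Module.finrank_self,
    Module.finrank_pi_fintype] at f2
  simp only [Finset.sum_const, Finset.card_univ, Fintype.card_fin, smul_eq_mul] at f2
  -- first description
  set N := ((Vge n).map D).map (Submodule.mkQ ((Vge (n + 1)).map D)) with hN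
  have f1 := Submodule.finrank_quotient_add_finrank N
  have g1 : Module.finrank ℝ N = 3 ^ n := by
    rw [hN, ← psi_range, LinearMap.finrank_range_of_inj (psi_inj hinj),
      Module.finrank_fintype_fun_eq_card]
    simp
  have hle : (Vge (n + 1)).map D ≤ (Vge n).map D := Submodule.map_mono Vge_le
  have g2 := (Submodule.quotientQuotientEquivQuotient _ _ hle).finrank_eq
  rw [g2, g1] at f1
  have hodd : Odd (3 ^ n) := Odd.pow (by decide)
  obtain ⟨m, hm⟩ := hodd
  omega

end Pool.Agent.Helper93.CK
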